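import Pool.Agent.Helper59.LD6.H3
import Pool.Agent.Helper17.LD6.GM
import Pool.Agent.Helper17.LD6.H1

/-!
# PD, block BOX: from sums of Haar functions to intervals, with densities
-/

set_option autoImplicit false

namespace Pool.Agent.Helper59.PD

open Set MeasureTheory
open Pool.Agent.Helper41.LD (haar)
open Pool.Agent.Helper41.LD6 (hr)
open Pool.Agent.Helper59.LD6 (co co_nonneg co_le indic haar_big hf num hr_num)
open Pool.Agent.Helper17.LD6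

/-- bounded measurable functions are integrable on bounded intervals -/
theorem bi {g : ℝ → ℝ} (hg : Measurable g) {C : ℝ} (hC : ∀ t, |g t| ≤ C) (a b : ℝ) : IntervalIntegrable g volume a b := by
  have h0 : 0 ≤ C := (abs_nonneg _).trans (hC 0)
  refine (intervalIntegrable_const (c := C)).mono_fun hg.aestronglyMeasurable ?_
  refine Filter.Eventually.of_forall fun t => ?_
  simp only [Real.norm_eq_abs, abs_of_nonneg h0]
  exact hC t

/-- a Haar function is in the list or zero -/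
theorem haar_cases (k i : ℕ) : (∃ q : ℕ, 1 ≤ q ∧ q < 2 ^ (k + 1) ∧ haar k i = hr q) ∨ haar k i = fun _ => 0 := by
  rcases lt_or_ge i (2 ^ k) with h | h
  · refine Or.inl ⟨2 ^ k + i, ?_, ?_, ?_⟩
    · have := Nat.one_le_two_pow (n := k)
      omega
    · rw [pow_succ]
      omega
    · have h1 := hr_num (q := some (k, i)) (fun k' j hkj => by
        simp only [Option.some.injEq, Prod.mk.injEq] at hkj
        rw [← hkj.1, ← hkj.2]
        exact h)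
      funext y
      have h2 := congrFun h1 y
      simp only [num, hf, Option.elim] at h2
      exact h2.symm
  · refine Or.inr ?_
    funext y
    exact haar_big h y

theorem haar_meas' (k i : ℕ) : Measurable (haar k i) := by
  rcases haar_cases k i with ⟨q, -, -, h⟩ | h
  · rw [h]; exact hr_meas17 q
  · rw [h]; exact measurable_const

theorem haar_abs' (k i : ℕ) (t : ℝ) : |haar k i t| ≤ 1 := by
  rcases haar_cases k i with ⟨q, -, -, h⟩ | h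
  · rw [h]; exact hr_abs17 q t
  · rw [h]; simp

theorem haar_mean' (k i : ℕ) : ∫ t in (0 : ℝ)..1, haar k i t = 0 := by
  rcases haar_cases k i with ⟨q, hq, -, h⟩ | h
  · rw [h, hr_mean, if_neg (by omega)]
  · rw [h]; simp

theorem int_ind {f : ℝ → ℝ} {α : ℝ} (h0 : 0 ≤ α) (h1 : α ≤ 1) :
    ∫ t in (0 : ℝ)..1, (if Int.fract t < α then (1 : ℝ) else 0) * f t = ∫ t in (0 : ℝ)..α, f t := by
  rw [intervalIntegral.integral_of_le zero_le_one, intervalIntegral.integral_of_le h0, integral_Ioc_eq_integral_Ioo,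
    integral_Ioc_eq_integral_Ioo]
  have e : ∫ t in Ioo (0 : ℝ) 1, (if Int.fract t < α then (1 : ℝ) else 0) * f t = ∫ t in Ioo (0 : ℝ) 1, (Iio α).indicator f t := by
    refine setIntegral_congr_fun measurableSet_Ioo fun t ht => ?_
    have e2 : Int.fract t = t := Int.fract_eq_self.2 ⟨ht.1.le, ht.2⟩
    simp only [e2, indicator, mem_Iio]
    split_ifs <;> simp
  rw [e, setIntegral_indicator measurableSet_Iio]
  have e3 : Ioo (0 : ℝ) 1 ∩ Iio α = Ioo 0 α := by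
    ext t
    simp only [mem_inter_iff, mem_Ioo, mem_Iio]
    constructor
    · rintro ⟨⟨h2, -⟩, h3⟩
      exact ⟨h2, h3⟩
    · rintro ⟨h2, h3⟩
      exact ⟨⟨h2, h3.trans_le h1⟩, h3⟩
  rw [e3]

/-- the integral of a density over a dyadic interval `[0, c / 2 ^ K)` -/
theorem int_dy {K c : ℕ} (hc : c ≤ 2 ^ K) {f : ℝ → ℝ} (hfm : Measurable f) (hb : ∀ t, |f t| ≤ 1) (h0 : ∫ t in (0 : ℝ)..1, f t = 0) :
    ∫ t in (0 : ℝ)..(c / 2 ^ K), (1 + f t) =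
      c / 2 ^ K + ∑ k ∈ Finset.range K, co (c / 2 ^ K) k * ∫ t in (0 : ℝ)..1, f t * haar k ⌊(2 : ℝ) ^ k * (c / 2 ^ K)⌋₊ t := by
  have hp : (0 : ℝ) < 2 ^ K := by positivity
  have hc' : (c : ℝ) ≤ 2 ^ K := by exact_mod_cast hc
  rw [← int_ind (f := fun t => 1 + f t) (α := c / 2 ^ K) (by positivity) ((div_le_one hp).2 hc')]
  simp only [indic hc]
  have e1 : ∀ t : ℝ, ((c : ℝ) / 2 ^ K + ∑ k ∈ Finset.range K, co (c / 2 ^ K) k * haar k ⌊(2 : ℝ) ^ k * (c / 2 ^ K)⌋₊ t) * (1 + f t) =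
      (c : ℝ) / 2 ^ K * (1 + f t) + ∑ k ∈ Finset.range K, co (c / 2 ^ K) k *
        (haar k ⌊(2 : ℝ) ^ k * (c / 2 ^ K)⌋₊ t + f t * haar k ⌊(2 : ℝ) ^ k * (c / 2 ^ K)⌋₊ t) := by
    intro t
    rw [add_mul, Finset.sum_mul]
    congr 1
    exact Finset.sum_congr rfl fun k _ => by ring
  simp only [e1]
  have i1 : ∀ k i : ℕ, IntervalIntegrable (fun t => f t * haar k i t) volume 0 1 := fun k i =>
    bi (g := fun t => f t * haar k i t) (hfm.mul (haar_meas' k i)) (C := 1) (fun t => by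
      rw [abs_mul]
      exact mul_le_one₀ (hb t) (abs_nonneg _) (haar_abs' k i t)) 0 1
  have i2 : ∀ k i : ℕ, IntervalIntegrable (haar k i) volume 0 1 := fun k i => bi (haar_meas' k i) (haar_abs' k i) 0 1
  have i3 : IntervalIntegrable f volume 0 1 := bi hfm hb 0 1
  rw [intervalIntegral.integral_add, intervalIntegral.integral_finsetSum, intervalIntegral.integral_const_mul,
    intervalIntegral.integral_add intervalIntegrable_const i3, h0]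
  · simp only [intervalIntegral.integral_const, sub_zero, smul_eq_mul, mul_one, add_zero]
    congr 1
    refine Finset.sum_congr rfl fun k _ => ?_
    rw [intervalIntegral.integral_const_mul, intervalIntegral.integral_add (i2 _ _) (i1 _ _), haar_mean', zero_add]
  · intro k _
    exact ((i2 _ _).add (i1 _ _)).const_mul _
  · exact (intervalIntegrable_const.add i3).const_mul _
  · have e9 : (fun t : ℝ => ∑ k ∈ Finset.range K, co (c / 2 ^ K) k *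
        (haar k ⌊(2 : ℝ) ^ k * (c / 2 ^ K)⌋₊ t + f t * haar k ⌊(2 : ℝ) ^ k * (c / 2 ^ K)⌋₊ t)) =
        ∑ k ∈ Finset.range K, fun t : ℝ => co (c / 2 ^ K) k *
        (haar k ⌊(2 : ℝ) ^ k * (c / 2 ^ K)⌋₊ t + f t * haar k ⌊(2 : ℝ) ^ k * (c / 2 ^ K)⌋₊ t) := by
      funext t
      rw [Finset.sum_apply]
    rw [e9]
    exact IntervalIntegrable.sum _ fun k _ => ((i2 _ _).add (i1 _ _)).const_mul _

section

variable {K T : ℕ} {y : ℕ → ℝ} {f : ℕ → ℝ → ℝ}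

/-- the discrepancy of `[0, α)` -/
noncomputable def Dn (T : ℕ) (y : ℕ → ℝ) (f : ℕ → ℝ → ℝ) (α : ℝ) : ℝ :=
  ∑ j ∈ Finset.range T, ((if Int.fract (y j) < α then (1 : ℝ) else 0) - ∫ t in (0 : ℝ)..α, (1 + f j t))

theorem Dn_dy (hf : ∀ j, Measurable (f j)) (hf1 : ∀ j t, |f j t| ≤ 1) (hf0 : ∀ j, ∫ t in (0 : ℝ)..1, f j t = 0) {R : ℝ} (hR : 0 ≤ R)
    (h : ∀ q : ℕ, 1 ≤ q → q < 2 ^ K → |∑ j ∈ Finset.range T, (hr q (y j) - ∫ t in (0 : ℝ)..1, f j t * hr q t)| ≤ R)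
    {c : ℕ} (hc : c ≤ 2 ^ K) : |Dn T y f (c / 2 ^ K)| ≤ K / 2 * R := by
  have e1 : Dn T y f (c / 2 ^ K) = ∑ k ∈ Finset.range K, co (c / 2 ^ K) k *
      ∑ j ∈ Finset.range T, (haar k ⌊(2 : ℝ) ^ k * (c / 2 ^ K)⌋₊ (y j) - ∫ t in (0 : ℝ)..1, f j t * haar k ⌊(2 : ℝ) ^ k * (c / 2 ^ K)⌋₊ t) := by
    unfold Dn
    simp only [Finset.mul_sum]
    rw [Finset.sum_comm]
    refine Finset.sum_congr rfl fun j _ => ?_
    rw [indic hc, int_dy hc (hf j) (hf1 j) (hf0 j), add_sub_add_left_eq_sub, ← Finset.sum_sub_distrib]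
    exact Finset.sum_congr rfl fun k _ => by ring
  rw [e1]
  refine (Finset.abs_sum_le_sum_abs _ _).trans ?_
  have h2 : ∀ k ∈ Finset.range K, |co (c / 2 ^ K) k *
      ∑ j ∈ Finset.range T, (haar k ⌊(2 : ℝ) ^ k * (c / 2 ^ K)⌋₊ (y j) - ∫ t in (0 : ℝ)..1, f j t * haar k ⌊(2 : ℝ) ^ k * (c / 2 ^ K)⌋₊ t)| ≤ 1 / 2 * R := by
    intro k hk
    rw [abs_mul, abs_of_nonneg (co_nonneg _ _)]
    refine mul_le_mul (co_le _ _) ?_ (abs_nonneg _) (by norm_num)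
    rcases haar_cases k ⌊(2 : ℝ) ^ k * (c / 2 ^ K)⌋₊ with ⟨q, hq, hq2, hq3⟩ | hq
    · rw [hq3]
      refine h q hq (hq2.trans_le (Nat.pow_le_pow_right (by norm_num) ?_))
      have := Finset.mem_range.1 hk
      omega
    · rw [hq]
      simpa using hR
  refine (Finset.sum_le_sum h2).trans ?_
  rw [Finset.sum_const, Finset.card_range, nsmul_eq_mul]
  apply le_of_eq
  ring

theorem dens_i (hf : ∀ j, Measurable (f j)) (hf1 : ∀ j t, |f j t| ≤ 1) (j : ℕ) (a b : ℝ) : IntervalIntegrable (fun t => 1 + f j t) volume a b :=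
  bi (g := fun t => 1 + f j t) (measurable_const.add (hf j)) (C := 2) (fun t => by
    have h1 := abs_le.1 (hf1 j t)
    rw [abs_le]
    constructor <;> linarith [h1.1, h1.2]) a b

theorem dens_le (hf1 : ∀ j t, |f j t| ≤ 1) (j : ℕ) {a b : ℝ} (hab : a ≤ b) : |∫ t in a..b, (1 + f j t)| ≤ 2 * (b - a) := by
  have h1 := intervalIntegral.norm_integral_le_of_norm_le_const (a := a) (b := b) (f := fun t => 1 + f j t) (C := 2) (fun t _ => by
    have h1 := abs_le.1 (hf1 j t)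
    rw [Real.norm_eq_abs, abs_le]
    constructor <;> linarith [h1.1, h1.2])
  rwa [Real.norm_eq_abs, abs_of_nonneg (sub_nonneg.2 hab)] at h1

theorem Dn_all (hf : ∀ j, Measurable (f j)) (hf1 : ∀ j t, |f j t| ≤ 1) (hf0 : ∀ j, ∫ t in (0 : ℝ)..1, f j t = 0) {R : ℝ} (hR : 0 ≤ R)
    (h : ∀ q : ℕ, 1 ≤ q → q < 2 ^ K → |∑ j ∈ Finset.range T, (hr q (y j) - ∫ t in (0 : ℝ)..1, f j t * hr q t)| ≤ R)
    {α : ℝ} (h0 : 0 ≤ α) (h1 : α ≤ 1) : |Dn T y f α| ≤ K / 2 * R + 2 * T / 2 ^ K := by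
  have hp : (0 : ℝ) < 2 ^ K := by positivity
  have fa : ((⌊2 ^ K * α⌋₊ : ℕ) : ℝ) ≤ 2 ^ K * α := Nat.floor_le (mul_nonneg hp.le h0)
  have fa' : 2 ^ K * α < (⌊2 ^ K * α⌋₊ : ℕ) + 1 := Nat.lt_floor_add_one _
  have ca : 2 ^ K * α ≤ (⌈2 ^ K * α⌉₊ : ℕ) := Nat.le_ceil _
  have ca' : ((⌈2 ^ K * α⌉₊ : ℕ) : ℝ) < 2 ^ K * α + 1 := Nat.ceil_lt_add_one (mul_nonneg hp.le h0)
  have hc : ⌈2 ^ K * α⌉₊ ≤ 2 ^ K := by
    rw [Nat.ceil_le]
    push_cast
    exact mul_le_of_le_one_right hp.le h1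
  have hfl : ⌊2 ^ K * α⌋₊ ≤ 2 ^ K := (Nat.floor_le_ceil _).trans hc
  have d1 := abs_le.1 (Dn_dy (y := y) hf hf1 hf0 hR h hc)
  have d2 := abs_le.1 (Dn_dy (y := y) hf hf1 hf0 hR h hfl)
  have a1 : α ≤ (⌈2 ^ K * α⌉₊ : ℕ) / 2 ^ K := (le_div_iff₀' hp).2 ca
  have a2 : ((⌈2 ^ K * α⌉₊ : ℕ) : ℝ) / 2 ^ K - α ≤ 1 / 2 ^ K := by
    rw [sub_le_iff_le_add, div_le_iff₀ hp, add_mul, div_mul_cancel₀ _ hp.ne']
    linarith
  have b1 : ((⌊2 ^ K * α⌋₊ : ℕ) : ℝ) / 2 ^ K ≤ α := (div_le_iff₀' hp).2 fa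
  have b2 : α - ((⌊2 ^ K * α⌋₊ : ℕ) : ℝ) / 2 ^ K ≤ 1 / 2 ^ K := by
    rw [sub_le_iff_le_add, ← add_div, le_div_iff₀ hp]
    linarith
  have hsplit : ∀ (j : ℕ) (s t : ℝ), ∫ v in (0 : ℝ)..t, (1 + f j v) = (∫ v in (0 : ℝ)..s, (1 + f j v)) + ∫ v in s..t, (1 + f j v) :=
    fun j s t => (intervalIntegral.integral_add_adjacent_intervals (dens_i hf hf1 j 0 s) (dens_i hf hf1 j s t)).symm
  have hsum : ∑ _j ∈ Finset.range T, (2 / 2 ^ K : ℝ) = 2 * T / 2 ^ K := by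
    rw [Finset.sum_const, Finset.card_range, nsmul_eq_mul]
    ring
  have up : Dn T y f α ≤ Dn T y f ((⌈2 ^ K * α⌉₊ : ℕ) / 2 ^ K) + 2 * T / 2 ^ K := by
    rw [← hsum]
    unfold Dn
    rw [← Finset.sum_add_distrib]
    refine Finset.sum_le_sum fun j _ => ?_
    have e1 := hsplit j α ((⌈2 ^ K * α⌉₊ : ℕ) / 2 ^ K)
    have e2 := (abs_le.1 (dens_le hf1 j a1)).2
    have e3 : (if Int.fract (y j) < α then (1 : ℝ) else 0) ≤ if Int.fract (y j) < ((⌈2 ^ K * α⌉₊ : ℕ) : ℝ) / 2 ^ K then 1 else 0 := by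
      by_cases c1 : Int.fract (y j) < α
      · rw [if_pos c1, if_pos (c1.trans_le a1)]
      · rw [if_neg c1]
        split_ifs <;> norm_num
    have e4 : 2 * (((⌈2 ^ K * α⌉₊ : ℕ) : ℝ) / 2 ^ K - α) ≤ 2 / 2 ^ K := by
      calc 2 * (((⌈2 ^ K * α⌉₊ : ℕ) : ℝ) / 2 ^ K - α) ≤ 2 * (1 / 2 ^ K) := by linarith
        _ = 2 / 2 ^ K := by ring
    linarith
  have lo : Dn T y f ((⌊2 ^ K * α⌋₊ : ℕ) / 2 ^ K) - 2 * T / 2 ^ K ≤ Dn T y f α := by
    rw [← hsum]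
    unfold Dn
    rw [← Finset.sum_sub_distrib]
    refine Finset.sum_le_sum fun j _ => ?_
    have e1 := hsplit j ((⌊2 ^ K * α⌋₊ : ℕ) / 2 ^ K) α
    have e2 := (abs_le.1 (dens_le hf1 j b1)).2
    have e3 : (if Int.fract (y j) < ((⌊2 ^ K * α⌋₊ : ℕ) : ℝ) / 2 ^ K then (1 : ℝ) else 0) ≤ if Int.fract (y j) < α then 1 else 0 := by
      by_cases c1 : Int.fract (y j) < ((⌊2 ^ K * α⌋₊ : ℕ) : ℝ) / 2 ^ K
      · rw [if_pos c1, if_pos (c1.trans_le b1)]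
      · rw [if_neg c1]
        split_ifs <;> norm_num
    have e4 : 2 * (α - ((⌊2 ^ K * α⌋₊ : ℕ) : ℝ) / 2 ^ K) ≤ 2 / 2 ^ K := by
      calc 2 * (α - ((⌊2 ^ K * α⌋₊ : ℕ) : ℝ) / 2 ^ K) ≤ 2 * (1 / 2 ^ K) := by linarith
        _ = 2 / 2 ^ K := by ring
    linarith
  rw [abs_le]
  constructor <;> linarith [d1.1, d1.2, d2.1, d2.2]

end

/-- `D (α) = #{j < T, {y j} < α} - ∑ ∫_0^α (1 + f j)`: the sums of the Haar functions of the levels `< K` control it -/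
theorem box_dens {K T : ℕ} (y : ℕ → ℝ) (f : ℕ → ℝ → ℝ) (hf : ∀ j, Measurable (f j)) (hf1 : ∀ j t, |f j t| ≤ 1)
    (hf0 : ∀ j, ∫ t in (0 : ℝ)..1, f j t = 0) {R : ℝ} (hR : 0 ≤ R)
    (h : ∀ q : ℕ, 1 ≤ q → q < 2 ^ K → |∑ j ∈ Finset.range T, (hr q (y j) - ∫ t in (0 : ℝ)..1, f j t * hr q t)| ≤ R)
    {α γ : ℝ} (hα : 0 ≤ α) (hαγ : α ≤ γ) (hγ : γ ≤ 1) :
    |∑ j ∈ Finset.range T, ((if α ≤ Int.fract (y j) ∧ Int.fract (y j) < γ then (1 : ℝ) else 0) - ∫ t in α..γ, (1 + f j t))| ≤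
      K * R + 4 * T / 2 ^ K := by
  have d1 := abs_le.1 (Dn_all (y := y) hf hf1 hf0 hR h hα (hαγ.trans hγ))
  have d2 := abs_le.1 (Dn_all (y := y) hf hf1 hf0 hR h (hα.trans hαγ) hγ)
  have e : ∑ j ∈ Finset.range T, ((if α ≤ Int.fract (y j) ∧ Int.fract (y j) < γ then (1 : ℝ) else 0) - ∫ t in α..γ, (1 + f j t)) =
      Dn T y f γ - Dn T y f α := by
    unfold Dn
    rw [← Finset.sum_sub_distrib]
    refine Finset.sum_congr rfl fun j _ => ?_
    rw [← intervalIntegral.integral_add_adjacent_intervals (dens_i hf hf1 j 0 α) (dens_i hf hf1 j α γ)]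
    have e3 : (if α ≤ Int.fract (y j) ∧ Int.fract (y j) < γ then (1 : ℝ) else 0) =
        (if Int.fract (y j) < γ then (1 : ℝ) else 0) - if Int.fract (y j) < α then (1 : ℝ) else 0 := by
      by_cases c1 : Int.fract (y j) < α
      · rw [if_neg (fun h => absurd c1 (not_lt.2 h.1)), if_pos c1, if_pos (c1.trans_le hαγ)]
        norm_num
      · rw [if_neg c1, sub_zero]
        by_cases c2 : Int.fract (y j) < γ
        · rw [if_pos c2, if_pos ⟨not_lt.1 c1, c2⟩]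
        · rw [if_neg c2, if_neg (fun h => c2 h.2)]
    rw [e3]
    ring
  rw [e, abs_le]
  have e5 : (K : ℝ) * R + 4 * T / 2 ^ K = (K / 2 * R + 2 * T / 2 ^ K) + (K / 2 * R + 2 * T / 2 ^ K) := by ring
  rw [e5]
  constructor <;> linarith [d1.1, d1.2, d2.1, d2.2]

end Pool.Agent.Helper59.PD
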