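import Pool.Agent.Helper41.PD.Defs
import Pool.Agent.Helper59.PD.Box
import Pool.Agent.Helper59.LD7.Cls

/-!
# PD, block CLST: the discrepancy of one stage with densities
-/

set_option autoImplicit false

namespace Pool.Agent.Helper59.PD

open Set MeasureTheory
open Pool.Agent.Helper41.LD (haar)
open Pool.Agent.Helper41.LD5 (fp pwf nuP)
open Pool.Agent.Helper41.LD6 (hr)
open Pool.Agent.Helper41.LD7
open Pool.Agent.Helper41.PD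
open Pool.Agent.Helper76.LD7 (num_K num_Z num_le num_pow)
open Pool.Agent.Helper68.LD7 (Tt_mono Tt_ge T_start)
open Pool.Agent.Helper94.LD7 (fp_nonneg Ico_diff)
open Pool.Agent.Helper11.LD7 (nu_T)

/-- two ranges whose ends differ by at most `D`, a function bounded by `2` -/
theorem Ico_diff2 (f : ℕ → ℝ) (hf : ∀ n, |f n| ≤ 2) {a b a' b' D : ℕ} (hab : a ≤ b) (hab' : a' ≤ b') (h1 : a ≤ a' + D) (h2 : a' ≤ a + D)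
    (h3 : b ≤ b' + D) (h4 : b' ≤ b + D) :
    |∑ n ∈ Finset.Ico a b, f n - ∑ n ∈ Finset.Ico a' b', f n| ≤ 4 * D := by
  have h := Ico_diff (fun n => f n / 2) (fun n => by
    rw [abs_div, abs_of_pos (by norm_num : (0 : ℝ) < 2)]
    linarith [hf n]) hab hab' h1 h2 h3 h4
  rw [← Finset.sum_div, ← Finset.sum_div, ← sub_div, abs_div, abs_of_pos (by norm_num : (0 : ℝ) < 2)] at h
  linarith

theorem clsT {X : ℕ} {A₀ x₁ x₂ : ℝ} {c : ℝ → ℝ} {K : ℕ} {a₀ ℓst ℓ x : ℝ} (hF : (F0 X A₀ x₁ x₂ c).Ok) (hK : (F0 X A₀ x₁ x₂ c).Big K)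
    (S : (F0 X A₀ x₁ x₂ c).St K a₀ ℓst) (hℓ : 0 < ℓ) (hst : ℓ ≤ ℓst) (hx : x ∈ Icc a₀ (a₀ + ℓst))
    (hT : (F0 X A₀ x₁ x₂ c).T K a₀ ℓst ℓ ≤ 2 ^ K * (X * K ^ 3))
    (u : ℕ → ℝ → ℝ) (hum : ∀ n, Measurable (u n)) (hu1 : ∀ n t, |u n t| ≤ 1) (hu0 : ∀ n, ∫ t in (0 : ℝ)..1, u n t = 0)
    (hsum : ∀ q : ℕ, 1 ≤ q → q < 2 ^ K → |∑ j ∈ Finset.range ((F0 X A₀ x₁ x₂ c).T K a₀ ℓst ℓ),
      (hr q (pwf A₀ c 1 ((F0 X A₀ x₁ x₂ c).n₀ K a₀ ℓst + j) x) - ∫ t in (0 : ℝ)..1, u ((F0 X A₀ x₁ x₂ c).n₀ K a₀ ℓst + j) t * hr q t)| ≤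
        2 ^ 21 * X * (K : ℝ) ^ 5)
    {α γ : ℝ} (hα : 0 ≤ α) (hαγ : α ≤ γ) (hγ : γ ≤ 1) :
    |∑ n ∈ Finset.Ico (nuP A₀ 1 1 x ℓst) (nuP A₀ 1 1 x ℓ), ((if α ≤ Int.fract (pwf A₀ c 1 n x) ∧ Int.fract (pwf A₀ c 1 n x) < γ then (1 : ℝ) else 0) -
      ∫ t in α..γ, (1 + u n t))| ≤ cF (F0 X A₀ x₁ x₂ c) * (K : ℝ) ^ 6 := by
  set F := F0 X A₀ x₁ x₂ c with hFdef
  have hK12 := num_K hK
  obtain ⟨-, -, hZK⟩ := num_Z hK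
  obtain ⟨hXZ1, -, -, -, -, -, -, -, -, -, hXd, hXC, -, -, -, hQX⟩ := num_le hF
  have hK1 : (1 : ℝ) ≤ K := by
    have : 1 ≤ K := by omega
    exact_mod_cast this
  have hFX : F.X = X := rfl
  have hFQ : F.Q = 1 := rfl
  have hFP : F.P = 1 := rfl
  have hFd : F.d = 0 := rfl
  have hFA : F.A₀ = A₀ := rfl
  have hx1 : 1 < x := hF.h1.trans_le (S.lo.trans hx.1)
  have hX1 : 1 ≤ F.X := hF.hQ.trans hF.hQX
  have hT' : F.T K a₀ ℓst ℓ ≤ 2 ^ K * (F.X * K ^ 3) := hT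
  -- the two intervals of times
  have hT2 : F.T K a₀ ℓst ℓ ≤ 2 ^ (2 * K) := by
    refine hT'.trans ?_
    have h1 : F.X * K ^ 3 ≤ 2 ^ K := by
      have h2 := (num_pow hF hK).1
      have h3 : F.X ≤ K := by omega
      calc F.X * K ^ 3 ≤ K * K ^ 3 := Nat.mul_le_mul_right _ h3
        _ = K ^ 4 := by ring
        _ ≤ K ^ 20 := Nat.pow_le_pow_right (by omega) (by norm_num)
        _ ≤ 2 ^ K := h2
    calc 2 ^ K * (F.X * K ^ 3) ≤ 2 ^ K * 2 ^ K := Nat.mul_le_mul_left _ h1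
      _ = 2 ^ (2 * K) := by rw [← pow_add]; congr 1; omega
  have hTst : F.T K a₀ ℓst ℓst ≤ 2 ^ (2 * K) := by rw [T_start]; exact Nat.zero_le _
  obtain ⟨n1, n2⟩ := nu_T hF hK S hℓ hst hT2 hx (g := 1) le_rfl hX1
  obtain ⟨m1, m2⟩ := nu_T hF hK S S.pos le_rfl hTst hx (g := 1) le_rfl hX1
  have hN : F.n₀ K a₀ ℓst ≤ Tt F.A₀ F.P (F.Th K) a₀ ℓ := Tt_mono hF S.lo hℓ hst
  have hn0 : Tt F.A₀ F.P (F.Th K) a₀ ℓst = F.n₀ K a₀ ℓst := rfl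
  rw [hn0] at m1 m2
  set N₁ := F.n₀ K a₀ ℓst with hN₁
  set N₂ := Tt F.A₀ F.P (F.Th K) a₀ ℓ with hN₂
  set T := F.T K a₀ ℓst ℓ with hTdef
  have hTN : N₂ = N₁ + T := by
    have : T = N₂ - N₁ := rfl
    omega
  obtain ⟨Δ, hΔ⟩ : ∃ Δ : ℕ, Δ = F.X * (F.C₁ * F.E K + 1) + 1 := ⟨_, rfl⟩
  rw [hFP, hFA] at n1 n2 m1 m2
  have hνν : nuP A₀ 1 1 x ℓst ≤ nuP A₀ 1 1 x ℓ := by
    have hne : {n : ℕ | 1 ≤ fp F.A₀ F.P (1 * n) x * ℓ}.Nonempty := by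
      refine ⟨Tt F.A₀ F.P 1 x ℓ, ?_⟩
      rw [Set.mem_ofPred_eq]
      exact Tt_ge hF (S.lo.trans hx.1) hℓ (Nat.le_mul_of_pos_left _ one_pos)
    rw [hFP, hFA] at hne
    unfold nuP
    refine Nat.sInf_le ?_
    rw [Set.mem_ofPred_eq]
    refine (show (1 : ℝ) ≤ _ from Nat.sInf_mem hne).trans ?_
    exact mul_le_mul_of_nonneg_left hst (fp_nonneg (hFA ▸ hF.hA) (by linarith))
  set ν₁ := nuP A₀ 1 1 x ℓst with hν₁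
  set ν₂ := nuP A₀ 1 1 x ℓ with hν₂
  have hb1 : ν₁ ≤ N₁ + Δ := by omega
  have hb2 : N₁ ≤ ν₁ + Δ := by omega
  have hb3 : ν₂ ≤ N₂ + Δ := by omega
  have hb4 : N₂ ≤ ν₂ + Δ := by omega
  -- the terms
  set g : ℕ → ℝ := fun n => (if α ≤ Int.fract (pwf A₀ c 1 n x) ∧ Int.fract (pwf A₀ c 1 n x) < γ then (1 : ℝ) else 0) -
      ∫ t in α..γ, (1 + u n t) with hg
  have hg2 : ∀ n, |g n| ≤ 2 := by
    intro n
    have h1 := abs_le.1 (dens_le hu1 n hαγ)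
    have h2 : 0 ≤ ∫ t in α..γ, (1 + u n t) := by
      refine intervalIntegral.integral_nonneg hαγ fun t _ => ?_
      have := (abs_le.1 (hu1 n t)).1
      linarith
    have h3 : 2 * (γ - α) ≤ 2 := by linarith
    rw [hg, abs_le]
    dsimp only
    split_ifs <;> constructor <;> linarith [h1.1, h1.2]
  have hbox : |∑ n ∈ Finset.Ico N₁ N₂, g n| ≤ K * (2 ^ 21 * X * (K : ℝ) ^ 5) + 4 * T / 2 ^ K := by
    have h1 := box_dens (K := K) (T := T) (fun j => pwf A₀ c 1 (N₁ + j) x) (fun j => u (N₁ + j)) (fun j => hum _) (fun j => hu1 _)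
      (fun j => hu0 _) (R := 2 ^ 21 * X * (K : ℝ) ^ 5) (by positivity) hsum hα hαγ hγ
    rw [hTN, Finset.sum_Ico_eq_sum_range, Nat.add_sub_cancel_left]
    exact h1
  have hdiff := Ico_diff2 g hg2 hνν (show N₁ ≤ N₂ by omega) hb1 hb2 hb3 hb4
  have hfin : |∑ n ∈ Finset.Ico ν₁ ν₂, g n| ≤ 4 * Δ + (K * (2 ^ 21 * X * (K : ℝ) ^ 5) + 4 * T / 2 ^ K) := by
    have h1 := abs_le.1 hdiff
    have h2 := abs_le.1 hbox
    rw [abs_le]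
    constructor <;> linarith [h1.1, h1.2, h2.1, h2.2]
  refine hfin.trans ?_
  -- the numbers
  have hZ0 : (0 : ℝ) ≤ F.Z := Nat.cast_nonneg _
  have hXZ : (X : ℝ) ≤ F.Z := by
    have h1 : F.X ≤ F.Z := by omega
    rw [hFX] at h1
    exact_mod_cast h1
  have hXC' : (X : ℝ) * F.C₁ ≤ F.Z := by
    rw [hFX] at hXC
    exact_mod_cast hXC
  have hK6 : ∀ j ≤ 6, (K : ℝ) ^ j ≤ (K : ℝ) ^ 6 := fun j hj => pow_le_pow_right₀ hK1 hj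
  have hTr : (T : ℝ) ≤ 2 ^ K * (X * (K : ℝ) ^ 3) := by exact_mod_cast hT
  have hp : (0 : ℝ) < 2 ^ K := by positivity
  have e1 : 4 * (T : ℝ) / 2 ^ K ≤ 4 * (F.Z * (K : ℝ) ^ 6) := by
    rw [div_le_iff₀ hp]
    have h3 := hK6 3 (by norm_num)
    calc 4 * (T : ℝ) ≤ 4 * (2 ^ K * (X * (K : ℝ) ^ 3)) := by linarith
      _ ≤ 4 * (2 ^ K * (F.Z * (K : ℝ) ^ 6)) := by gcongr
      _ = 4 * (F.Z * (K : ℝ) ^ 6) * 2 ^ K := by ring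
  have e2 : (K : ℝ) * (2 ^ 21 * X * (K : ℝ) ^ 5) ≤ 2 ^ 21 * (F.Z * (K : ℝ) ^ 6) := by
    calc (K : ℝ) * (2 ^ 21 * X * (K : ℝ) ^ 5) = 2 ^ 21 * (X * (K : ℝ) ^ 6) := by ring
      _ ≤ 2 ^ 21 * (F.Z * (K : ℝ) ^ 6) := by gcongr
  have e3 : (Δ : ℝ) ≤ 6 * (F.Z * (K : ℝ) ^ 6) := by
    rw [hΔ, Pm.E, hFd]
    push_cast
    have hZ1 : (1 : ℝ) ≤ F.Z := by
      have h1 : 1 ≤ F.Z := by omega
      exact_mod_cast h1
    have h1 := hK6 1 (by norm_num)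
    have h0 : (1 : ℝ) ≤ (K : ℝ) ^ 6 := one_le_pow₀ hK1
    rw [pow_one] at h1
    have h2 : (X : ℝ) * F.C₁ * K ≤ F.Z * (K : ℝ) ^ 6 := mul_le_mul hXC' h1 (by positivity) hZ0
    have h3 : (X : ℝ) ≤ F.Z * (K : ℝ) ^ 6 := hXZ.trans (le_mul_of_one_le_right hZ0 h0)
    have h4 : (1 : ℝ) ≤ F.Z * (K : ℝ) ^ 6 := hZ1.trans (le_mul_of_one_le_right hZ0 h0)
    rw [hFX]
    linarith
  have e4 : ((cF F : ℕ) : ℝ) = 2 ^ 33 * F.Z := by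
    unfold cF
    rw [hFd, hFQ]
    push_cast
    ring
  rw [e4]
  have h9 : 0 ≤ F.Z * (K : ℝ) ^ 6 := mul_nonneg hZ0 (pow_nonneg (by linarith) 6)
  linarith

end Pool.Agent.Helper59.PD
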