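import Pool.Agent.Helper59.PD.Cnt
import Pool.Agent.Helper13.PD.AN2
import Pool.Agent.Helper13.HG2.Final

/-!
# Project PD (MP_e66f84_ag), block P8: the analytic theorem
-/

set_option autoImplicit false
set_option linter.unusedSectionVars false

namespace Pool.Agent.PD

open VC Filter Topology NumberField IsDedekindDomain IntermediateField Pool.Agent.SC
open Pool.Agent.L (Inert L0 MM SamePlace OverV)
open Pool.Agent.LN (Geo Act IsRam DecPt)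
open Pool.Agent.M (UR NN Moves OverPl inL0 exists_M13)
open Pool.Agent.HG (Pr nm Ctx Gd Special BadT)
open Pool.Agent.Helper99.HG (CD pf Nm)
open Pool.Agent.MP (SysR TAR)
open Pool.Agent.Helper99.ML (BTb)
open Pool.Agent.ML (HasMu BPl IsZ sgn OkL cdL ggL DatL Lab StmtCLL Gl QM exists_zz exists_pl
  exists_Q exists_w exists_lab isRam_iff_lab)
open Pool.Agent.MLT (WJbt TBRbt)

/-- the branch places of `R` are roots in `k` -/
theorem exists_rat59 {k K0 E U : Type} [Field k] [NumberField k]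
    [Field K0] [Field E] [Field U] [Algebra k K0]
    [Algebra k E] [Algebra E U] [Algebra K0 U] [Algebra k U] [IsScalarTower k E U]
    [IsScalarTower k K0 U] {ℓ : ℕ} {h : K0} {r : U} (G : Geo k K0 E U ℓ h r)
    {c₀ : k} {Φ₀ : (E ≃ₐ[k] E) →* (U ≃+* U)} (hc₀ : c₀ ≠ 0) (hA₀ : Act (K0 := K0) ℓ r c₀ Φ₀)
    {f : Polynomial k} {θ : Place E (L0 E K0 (U := U)) → E} (Gl' : GlP ℓ h r f θ)
    {R : Finset (Place E (L0 E K0 (U := U)))} (hO : RatSet (k := k) ℓ h r R) :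
    ∃ root : Place E (L0 E K0 (U := U)) → k,
      (∀ b ∈ R, algebraMap k E (root b) = θ b ∧ Polynomial.eval (root b) f = 0) ∧
      ∀ a : k, Polynomial.eval a f = 0 → ∃ b ∈ R, root b = a := by
  classical
  have hclE : IsAlgClosed E := G.clE
  have halg : Algebra.IsAlgebraic k E := G.algE
  have hgal : IsGalois k E := by
    have : IsAlgClosure k E := ⟨inferInstance, inferInstance⟩
    have := IsAlgClosure.normal k E
    exact ⟨⟩
  have hex : ∀ b : Place E (L0 E K0 (U := U)), ∃ a : k, b ∈ R → algebraMap k E a = θ b := by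
    intro b
    by_cases hb : b ∈ R
    · have h1 := InfiniteGalois.fixedField_bot (k := k) (K := E)
      have h2 : θ b ∈ (⊥ : IntermediateField k E) := by
        rw [← h1]
        intro ⟨g, _⟩
        exact (Gl'.act c₀ Φ₀ hc₀ hA₀ g b b (hO.br b hb) (hO.br b hb)).1 (hO.fix b hb c₀ Φ₀ hc₀ hA₀ g)
      obtain ⟨a, ha⟩ := IntermediateField.mem_bot.1 h2
      exact ⟨a, fun _ => ha⟩
    · exact ⟨0, fun h => absurd h hb⟩
  choose root hroot using hex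
  refine ⟨root, fun b hb => ⟨hroot b hb, ?_⟩, fun a ha => ?_⟩
  · have h1 := Gl'.root b (hO.br b hb)
    rw [← hroot b hb, Polynomial.aeval_algebraMap_apply, map_eq_zero] at h1
    exact h1
  · obtain ⟨b, hb, hbθ⟩ := rat_mem Gl' hO hc₀ hA₀ ha
    refine ⟨b, hb, ?_⟩
    apply (algebraMap k E).injective
    rw [hroot b hb, hbθ]

open scoped Classical in
/-- **BLOCK P8: the analytic theorem.** -/
theorem aN (hCN : StmtCountN) (hCL : StmtCountL) (hBTLP : StmtBTLP) (hBTPL : StmtBTPL)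
    (hG1 : StmtG1) (hG3 : StmtG3) (hINTN : StmtINTN) (hNR : ML.StmtNR) (hFB : M.StmtFB)
    (hFIN : ML.StmtFIN) (hZ : ML.StmtZ) (hLFT : ML.StmtLFT) (hMU : ML.StmtMU)
    (hQMD : ML.StmtQMD) (hW3 : M.StmtW3) (hSel : ML.StmtSel) (hMert : HG.StmtMert)
    (hSplit : HG.StmtSplit) (hDK : MP.StmtDK) (hBTL : ML.StmtBTL) (hThue : HG.StmtThue)
    (hG4 : ML.StmtG4P) (hG2 : ML.StmtG2) (hCLL : ML.StmtCLL) : StmtAN := by
  intro k K0 E U _ _ _ _ _ _ _ _ _ _ _ _ ℓ h r hℓ hmu G R hO Zf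
  have hNeZ : NeZero ℓ := ⟨hℓ.ne_zero⟩
  have hclE : IsAlgClosed E := G.clE
  have halg : Algebra.IsAlgebraic k E := G.algE
  have hcE : CharZero E := charZero_of_injective_algebraMap (algebraMap k E).injective
  have hg0 : ∀ Y : ℕ, (0 : ℝ) ≤ Y * Real.log Y ^ (((ℓ - 1 : ℕ) : ℝ) - 1) := fun Y =>
    mul_nonneg (Nat.cast_nonneg Y) (Real.rpow_nonneg (Real.log_natCast_nonneg Y) _)
  obtain ⟨zz, hzz⟩ := exists_zz hZ hℓ.pos hℓ dvd_rfl hmu G
  by_cases hex : ∃ (c₀ : k) (Φ₀ : (E ≃ₐ[k] E) →* (U ≃+* U)), c₀ ≠ 0 ∧ Act (K0 := K0) ℓ r c₀ Φ₀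
  swap
  · obtain ⟨N, hN, hMN, hZN, _⟩ := hINTN k K0 E U ℓ h r hℓ hmu G 1 Zf le_rfl zz hzz
    refine ⟨N, ∅, hN, hMN, hZN, Set.finite_empty, fun ε hε => ⟨0, ?_⟩⟩
    refine Eventually.of_forall fun Y T hT hTc => ?_
    have hT0 : T = ∅ := by
      rw [Finset.eq_empty_iff_forall_notMem]
      intro c hc
      obtain ⟨h1, _, Φ, hΦ, _⟩ := hTc c hc
      exact hex ⟨c, Φ, h1, hΦ⟩
    rw [hT0, Finset.card_empty, Nat.cast_zero]
    exact mul_nonneg hε.le (hg0 Y)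
  obtain ⟨c₀, Φ₀, hc₀, hA₀⟩ := hex
  obtain ⟨f, θ, Gl'⟩ := exists_glP hNR hFB hℓ hmu G hc₀ hA₀
  obtain ⟨root, hroot, hsurj⟩ := exists_rat59 G hc₀ hA₀ Gl' hO
  obtain ⟨b₀, hb₀⟩ := hO.ne
  have heven : ℓ = 2 → Even f.natDegree := fun h2 => by
    rw [Gl'.deg]
    exact even_of h2 G
  have hbig : f.natDegree * ℓ ^ 2 < ℓ ^ f.natDegree := by
    rw [Gl'.deg]
    exact hO.num
  have hdeg : 2 ≤ f.natDegree := by
    have h1 : f.natDegree ≠ 0 := by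
      intro h1
      obtain ⟨a, ha⟩ : ∃ a : k, f = Polynomial.C a := Polynomial.natDegree_eq_zero.1 h1 |>.imp
        fun _ h => h.symm
      have h2 := (hroot b₀ hb₀).2
      rw [ha, Polynomial.eval_C] at h2
      apply Gl'.sep.ne_zero
      rw [ha, h2, map_zero]
    have h2 : f.natDegree ≠ 1 := by
      intro h2
      rw [h2, one_mul, pow_one] at hbig
      have h3 : ℓ ≤ ℓ ^ 2 := Nat.le_self_pow (by norm_num) ℓ
      omega
    omega
  have hNF : NumberField f.SplittingField := NumberField.of_module_finite k f.SplittingField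
  have hGal : IsGalois k f.SplittingField := IsGalois.of_separable_splitting_field Gl'.sep
  have hsplit : (f.map (algebraMap k f.SplittingField)).Splits := Polynomial.SplittingField.splits f
  let ι : f.SplittingField →ₐ[k] E := IsAlgClosed.lift
  have hne : Nonempty (Place E (NN E K0 ℓ (U := U))) := exists_pl ℓ (b := b₀)
  obtain ⟨θL, bt, hθL, hGl⟩ := exists_glPL Gl' ι b₀
  have haL : ∀ b ∈ R, θL b = algebraMap k f.SplittingField (root b) := by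
    intro b hb
    refine ι.injective (?_ : ι (θL b) = ι (algebraMap k f.SplittingField (root b)))
    rw [hθL b (hO.br b hb), AlgHom.commutes]
    exact (hroot b hb).1.symm
  -- the number of places over a place
  obtain ⟨⟨K, hK⟩, hMU2⟩ := hMU k K0 E U ℓ ℓ h r hℓ.pos hℓ dvd_rfl hmu G
  obtain ⟨Bs, hBs⟩ := Pool.Agent.HG.exists_B5 k
  -- the density
  obtain ⟨ε₁, hε₁, hG3'⟩ := hG3 hMert hSplit hDK hW3 k f.SplittingField f ℓ hℓ hmu heven hbig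
    ⟨root b₀, (hroot b₀ hb₀).2⟩
    (fun a b ha hb hab => pair_of Gl' hO hc₀ hA₀ f.SplittingField ι hsplit a b ha hb hab) K
  obtain ⟨m, Lm, hm1, hLf, hLg, hdens⟩ := hQMD k K0 E U ℓ ℓ h r hℓ.pos hℓ dvd_rfl hmu G ε₁ hε₁
  -- the finitely many actions
  obtain ⟨I, hI, c₁, Φ₁, hΦ₁, hcls⟩ := hFIN k K0 E U ℓ ℓ h r hℓ.pos hℓ dvd_rfl hmu G m
  obtain ⟨N, hN, hMN, hZN, hint⟩ := hINTN k K0 E U ℓ h r hℓ hmu G m Zf hm1 zz hzz
  choose Bad hBad hint using fun i => hint (c₁ i) (Φ₁ i) (hΦ₁ i).1 (hΦ₁ i).2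
  choose δ C₀ Bad' Q hδ hBad' hQ hsum using fun i => exists_Q hW3 G (hΦ₁ i).2 (ℓ := ℓ) (m := m) Lm
    hLf hLg (hdens (c₁ i) (Φ₁ i) (hΦ₁ i).1 (hΦ₁ i).2) Bs hBs
  -- the excluded number
  obtain ⟨M₁, hM₁, hM₁v⟩ := exists_M13
    ((Set.finite_iUnion hBad).union (Set.finite_iUnion hBad'))
  obtain ⟨M₂, hM₂, hlft⟩ := hLFT k f.SplittingField E ι
  obtain ⟨X, hMX, hm, hfin⟩ := hG4 hThue k f.SplittingField f Gl'.sep hsplit (by omega)
    (M₁ * M₂ * ℓ)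
    (mul_ne_zero (mul_ne_zero hM₁ hM₂) hℓ.ne_zero)
  have hM₁X : M₁ ∣ X.M := ((Dvd.intro _ rfl).trans (Dvd.intro _ rfl)).trans hMX
  have hM₂X : M₂ ∣ X.M := ((Dvd.intro_left _ rfl).trans (Dvd.intro _ rfl)).trans hMX
  have hlM : ℓ ∣ X.M := (Dvd.intro_left _ rfl).trans hMX
  have hXBad : ∀ i, ∀ v ∈ Bad i, ¬ Gd X.M v := fun i v hv =>
    hM₁v X.M hM₁X v (Or.inl (Set.mem_iUnion.2 ⟨i, hv⟩))
  have hXBad' : ∀ i, ∀ v ∈ Bad' i, ¬ Gd X.M v := fun i v hv =>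
    hM₁v X.M hM₁X v (Or.inr (Set.mem_iUnion.2 ⟨i, hv⟩))
  -- the Frobenius elements
  have hlift : ∀ v : Pr k, ∃ (O : ValuationSubring E) (F : E ≃ₐ[k] E) (p f' : ℕ), Gd X.M v →
      DecPt v O F p f' ∧ (∀ z : f.SplittingField, ι z ∈ O ↔
        (X.P v).valuation f.SplittingField z ≤ 1) ∧ ∀ z, F (ι z) = ι (X.F v z) := by
    intro v
    by_cases hv : Gd X.M v
    · obtain ⟨O, F, p, f', h1⟩ := hlft f X hM₂X v hv
      exact ⟨O, F, p, f', fun _ => h1⟩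
    · exact ⟨⊤, 1, 0, 0, fun h1 => absurd h1 hv⟩
  choose O F p f' hdec using hlift
  -- the options
  let VS : I → Pr k → f.SplittingField → Set (Place E (NN E K0 ℓ (U := U))) := fun i v t =>
    {P | Gd X.M v ∧ OverPl (bt t) P ∧ ∃ Q : Place E (NN E K0 (ℓ ^ m) (U := U)), OverPl P Q ∧
      Moves (Φ₁ i (F v)) _ Q Q}
  have hVSsub : ∀ i v t, VS i v t ⊆ {P : Place E (NN E K0 ℓ (U := U)) | OverPl (bt t) P} :=
    fun i v t P hP => hP.2.1
  have hVSfin : ∀ i v t, (VS i v t).Finite := fun i v t => (hK (bt t)).1.subset (hVSsub i v t)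
  let Vι : I → Pr k → f.SplittingField → Finset (Place E (NN E K0 ℓ (U := U))) := fun i v t =>
    (hVSfin i v t).toFinset
  have hVιmem : ∀ i v t P, P ∈ Vι i v t ↔ P ∈ VS i v t := fun i v t P =>
    Set.Finite.mem_toFinset _
  have hVιK : ∀ i v t, (Vι i v t).card ≤ K := by
    intro i v t
    refine le_trans ?_ (hK (bt t)).2
    have h1 : (Vι i v t).card = (VS i v t).ncard := (Set.ncard_eq_toFinset_card _ _).symm
    rw [h1]
    have h2 := Set.ncard_le_ncard (hVSsub i v t) (hK (bt t)).1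
    rwa [← Nat.card_coe_set_eq {P : Place E (NN E K0 ℓ (U := U)) | OverPl (bt t) P}] at h2
  have hVι1 : ∀ i, ∀ v ∉ Q i, Gd X.M v → ∀ t, (Vι i v t).card ≤ 1 := by
    intro i v hvQ hgd t
    have hnQM : ¬ QM E K0 ℓ m (Φ₁ i (F v)) :=
      hQ i v (fun h1 => hXBad' i v h1 hgd) (O v) (F v) (p v) (f' v) (hdec v hgd).1 hvQ
    rw [Finset.card_le_one]
    intro P hP P' hP'
    rw [hVιmem] at hP hP'
    obtain ⟨_, h1, R, h2, h3⟩ := hP
    obtain ⟨_, h1', R', h2', h3'⟩ := hP'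
    exact hMU2 (c₁ i) (Φ₁ i) (hΦ₁ i).1 (hΦ₁ i).2 m (F v) hm1 hnQM (bt t) P P' R R' h1 h1' h2 h2'
      h3 h3'
  -- the signs
  let SG : I → Pr k → Place E (NN E K0 ℓ (U := U)) → ℕ → f.SplittingField → f.SplittingField →
      rootsOfUnity ℓ k := fun i v P N x x' => sgn ℓ (Φ₁ i (F v) ^ N) P (zz (bt x) (bt x'))
  obtain ⟨w, hw1, hw2⟩ := exists_w (n := ℓ) hℓ fun x : f.SplittingField =>
    ord (bt x).ring (inL0 h)
  -- the relations
  choose H hH hh hg using fun i => hG1 hSel k f.SplittingField f X ℓ hℓ hmu hlM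
    hdeg hm hfin (Place E (NN E K0 ℓ (U := U))) (Vι i) w (SG i)
  have hHI : Finite (Σ i, H i) := inferInstance
  have hHF : Fintype (Σ i, H i) := Fintype.ofFinite _
  obtain ⟨R₀, hR₀⟩ : ∃ R₀ : Finset (Fin X.m), R₀ =
      R.image (fun b => X.cmp hm (algebraMap k f.SplittingField (root b))) := ⟨_, rfl⟩
  have hR₀m : ∀ j ∈ R₀, ∃ b ∈ R, j = X.cmp hm (algebraMap k f.SplittingField (root b)) := by
    intro j hj
    rw [hR₀, Finset.mem_image] at hj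
    obtain ⟨b, hb, hb'⟩ := hj
    exact ⟨b, hb, hb'.symm⟩
  let D : (Σ i, H i) → CD X.m (rootsOfUnity ℓ k) := fun j =>
    cdL X ℓ ℓ hm hfin (Place E (NN E K0 ℓ (U := U))) (Vι j.1) (fun _ _ => True) w
      (ggL X ℓ hm w (SG j.1) (hh j.1 j.2))
  let Rs : Set (Pr k × Fin ℓ) := {p | ¬ ℓ ∣ (p.2 : ℕ)}
  have hG3D : ∀ j : Σ i, H i, SysR (D j).P (D j).nm Rs ((ℓ - 1 : ℕ) : ℝ) ∧
      (∃ K' : ℕ, ∀ p, ((D j).V p).card ≤ K') ∧
      (∀ j₀ ∈ R₀, Special (D j) j₀) ∧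
      (∀ J : Finset (Fin X.m), (∃ j₀ ∈ R₀, J = {j₀}) ∨ TAR (D j) Rs J ∨
        TBRbt (D j) (1 / ℓ) Rs ((ℓ - 1 : ℕ) : ℝ) J) ∧
      ∀ j₀ ∈ R₀, ∀ J : Finset (Fin X.m), j₀ ∈ J → J ≠ {j₀} →
        TBRbt (D j) (1 / ℓ) Rs ((ℓ - 1 : ℕ) : ℝ) J := by
    rintro ⟨i, j⟩
    obtain ⟨g1, g2, g3, g4, g5⟩ := hG3' X hm hfin (Place E (NN E K0 ℓ (U := U))) (Vι i) w (SG i)
      (hh i j) (hVιK i) (Q i) (hVι1 i) Bs hBs (δ i) (C₀ i) (hδ i) (hsum i)
    refine ⟨g1, g2, fun j₀ hj₀ => ?_, fun J => ?_, fun j₀ hj₀ => ?_⟩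
    · obtain ⟨b, hb, rfl⟩ := hR₀m j₀ hj₀
      exact g3 _ (hroot b hb).2
    · rcases g4 J with ⟨a, ha, hJ⟩ | h4 | h4
      · obtain ⟨b, hb, hba⟩ := hsurj a ha
        refine Or.inl ⟨_, ?_, hJ⟩
        rw [hR₀, Finset.mem_image]
        exact ⟨b, hb, by rw [hba]⟩
      · exact Or.inr (Or.inl h4)
      · exact Or.inr (Or.inr h4)
    · obtain ⟨b, hb, rfl⟩ := hR₀m j₀ hj₀
      exact g5 _ (hroot b hb).2
  have hb0 : (0 : ℝ) < 1 / ℓ := by
    have : (0 : ℝ) < ℓ := by exact_mod_cast hℓ.pos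
    positivity
  have hb1 : (1 : ℝ) / ℓ ≤ 1 := by
    have : (1 : ℝ) ≤ ℓ := by exact_mod_cast hℓ.one_lt.le
    rw [div_le_one (by linarith)]
    exact this
  have hκ : (1 : ℝ) ≤ ((ℓ - 1 : ℕ) : ℝ) := by
    have h1 := hℓ.two_le
    exact_mod_cast (by omega : 1 ≤ ℓ - 1)
  obtain ⟨Fc, hFc⟩ := cls_of_labels59 (k := k) hCLL hℓ X.hM
  refine ⟨N, {v : Pr k | ¬ Gd X.M v}, hN, hMN, hZN, hfin, fun ε hε => ?_⟩
  obtain ⟨B, hB2, hcnt⟩ := count59 hCN hCL D hb0 hb1 (fun _ => OkL)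
    (fun _ m c hmc hc => Set.InjOn.mono (Finset.coe_subset.2 hmc) hc) (fun _ => Rs) hκ R₀
    ⟨X.cmp hm (algebraMap k f.SplittingField (root b₀)), by
      rw [hR₀, Finset.mem_image]
      exact ⟨b₀, hb₀, rfl⟩⟩
    (fun j => (hG3D j).1) (fun j => (hG3D j).2.1)
    (fun j => hG2 hBTL hMert k f.SplittingField f X ℓ ℓ hℓ hmu hlM hm hfin _ (Vι j.1)
      (fun _ _ => True) w _ fun e θ _ => hw2 θ e)
    (fun j => (hG3D j).2.2.1)
    (fun j j₀ hj₀ => by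
      obtain ⟨b, hb, rfl⟩ := hR₀m j₀ hj₀
      exact hBTPL hBTLP hSel hMert k f.SplittingField f X ℓ hℓ hmu hlM (root b) (hroot b hb).2 hm
        hfin _ (Vι j.1) w _ fun e θ => hw2 θ e)
    (fun j => (hG3D j).2.2.2.1) (fun j => (hG3D j).2.2.2.2)
    (ε := ε / (Fc + 1)) (by positivity)
  refine ⟨B, ?_⟩
  filter_upwards [hcnt] with Y hY
  intro T hT hTc
  have h1 := hFc (fun c : k => ∃ Φ : (E ≃ₐ[k] E) →* (U ≃+* U), Act (K0 := K0) ℓ r c Φ ∧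
      ∀ b₀ ∈ R, ∃ v : Pr k, v ∉ {v : Pr k | ¬ Gd X.M v} ∧ B < nm v ∧ IsRam ℓ v c ∧
        ¬ OptAt Φ N b₀ v) Y
    (ε / (Fc + 1) * (Y * Real.log Y ^ (((ℓ - 1 : ℕ) : ℝ) - 1))) (by
      intro SS hSS
      obtain ⟨Pd, hPd⟩ : ∃ Pd : ∀ j : Σ i, H i, Finset (D j).P → Prop, ∀ j A, Pd j A ↔
        (∀ p ∈ pf (D j) A, p ∈ Rs) ∧ OkL A ∧
        ∃ τ : (D j).P → (D j).O, BadT (D j) A τ ∧
          ∀ j₀ ∈ R₀, ∃ p ∈ pf (D j) A, (D j).cmp (τ p) ≠ j₀ ∧ B ≤ (D j).nm p :=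
        ⟨_, fun _ _ => Iff.rfl⟩
      let S : ∀ j : Σ i, H i, Finset (Finset (D j).P) := fun j => SS.filter (Pd j)
      have hSm : ∀ j A, A ∈ S j ↔ A ∈ SS ∧ Pd j A := fun j A => Finset.mem_filter
      have hS : ∀ j, ∀ A ∈ S j, Nm (D j) A ≤ Y ∧ (∀ p ∈ pf (D j) A, p ∈ Rs) ∧ OkL A ∧
          ∃ τ : (D j).P → (D j).O, BadT (D j) A τ ∧
          ∀ j₀ ∈ R₀, ∃ p ∈ pf (D j) A, (D j).cmp (τ p) ≠ j₀ ∧ B ≤ (D j).nm p := by
        intro j A hA
        obtain ⟨h2, h3⟩ := (hSm j A).1 hA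
        exact ⟨(hSS A h2).1, (hPd j A).1 h3⟩
      have hcov : SS ⊆ Finset.univ.biUnion
          fun j : Σ i, H i => (S j : Finset (Finset (Pr k × Fin ℓ))) := by
        intro A hA
        obtain ⟨_, c, hc, ⟨Φ, hΦ, hall⟩, hAS⟩ := hSS A hA
        obtain ⟨i, hi⟩ := hcls c Φ hc hΦ
        obtain ⟨δ', hδ'⟩ := hint i c Φ hc hΦ hi
        have hGlX := hGl X (c₁ i) (Φ₁ i) (hΦ₁ i).1 (hΦ₁ i).2
        obtain ⟨D', t, P, hD, hP⟩ := exists_datLN hℓ hmu hlM hGlX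
          (hXBad i) hc hδ' (O := O) (F := F) (p' := p) (f' := f') hdec hAS (w := w)
          fun x hx e he => hw1 x (hGlX.bt_mem x hx) e he
        obtain ⟨j, u, hj⟩ := hg i c A D' t P hD (by
          intro v e hv
          rw [hVιmem]
          exact ⟨((hAS v e).1 hv).1, (hP v e hv).1, (hP v e hv).2.1⟩)
        refine Finset.mem_biUnion.2 ⟨⟨i, j⟩, Finset.mem_univ _, (hSm ⟨i, j⟩ A).2 ⟨hA, ?_⟩⟩
        refine (hPd ⟨i, j⟩ A).2 ⟨?_, ?_, _, hj, ?_⟩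
        · rintro ⟨v, e⟩ hv
          have hvA : (v, e) ∈ A := (Pool.Agent.Helper99.HG.mem_pf.1 hv).1
          exact ((hAS v e).1 hvA).2.1
        · rintro ⟨v, e⟩ hv ⟨v', e'⟩ hv' hvv
          have hvv' : v = v' := hvv
          subst hvv'
          have h3 : e = e' := hD.uniq hv hv'
          rw [h3]
        · intro j₀ hj₀
          obtain ⟨b, hb, hbj⟩ := hR₀m j₀ hj₀
          obtain ⟨v, hvg, hvB, hvodd, hvopt⟩ := hall b hb
          obtain ⟨e, he⟩ := exists_lab v hℓ.pos hc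
          have hvA : (v, e) ∈ A :=
            (hAS v e).2 ⟨not_not.1 hvg, (isRam_iff_lab hℓ.pos hc he dvd_rfl).1 hvodd, he⟩
          refine ⟨(v, e), ?_, ?_, hvB.le⟩
          · refine Pool.Agent.Helper99.HG.mem_pf.2 ⟨hvA, fun h1 => ?_⟩
            have h2 : (v, e) ∈ hfin.toFinset ×ˢ (Finset.univ : Finset (Fin ℓ)) := h1
            exact (hfin.mem_toFinset.1 (Finset.mem_product.1 h2).1) ((hAS v e).1 hvA).1
          · intro h2
            have h3 : X.cmp hm (t v) = j₀ := h2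
            rw [hbj] at h3
            have h4 := (Pool.Agent.HG.cmp_root X hm (hroot b hb).2 (hD.t_mem v e hvA)).1 h3
            apply hvopt
            have h5 := (hP v e hvA).2.2
            rw [h4, ← haL b hb] at h5
            rwa [hGlX.bt_θ b (hO.br b hb)] at h5
      have h2 : (SS.card : ℝ) ≤ ∑ j : Σ i, H i, ((S j).card : ℝ) := by
        exact_mod_cast (Finset.card_le_card hcov).trans Finset.card_biUnion_le
      exact h2.trans (hY S hS)) T hT hTc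
  refine h1.trans ?_
  have h3 : 0 ≤ ε / (Fc + 1) * (Y * Real.log Y ^ (((ℓ - 1 : ℕ) : ℝ) - 1)) :=
    mul_nonneg (by positivity) (hg0 Y)
  have h4 : (Fc : ℝ) * (ε / (Fc + 1) * (Y * Real.log Y ^ (((ℓ - 1 : ℕ) : ℝ) - 1))) ≤
      (Fc + 1) * (ε / (Fc + 1) * (Y * Real.log Y ^ (((ℓ - 1 : ℕ) : ℝ) - 1))) :=
    mul_le_mul_of_nonneg_right (by linarith) h3
  refine h4.trans (le_of_eq ?_)
  field_simp

end Pool.Agent.PD
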