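import Pool.Agent.Helper97.PD.Defs

/-!
# Project PD (MP_e66f84_ag), block P8: the count with a set of special components
-/

set_option autoImplicit false
set_option linter.unusedSectionVars false

namespace Pool.Agent.PD

open VC Filter Topology NumberField IsDedekindDomain IntermediateField Pool.Agent.SC
open Pool.Agent.L (Inert L0 MM SamePlace OverV)
open Pool.Agent.LN (Geo Act IsRam DecPt)
open Pool.Agent.M (UR NN Moves OverPl inL0)
open Pool.Agent.HG (Pr nm Ctx Gd Special BadT)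
open Pool.Agent.Helper99.HG (CD pf Nm)
open Pool.Agent.MP (SysR TAR)
open Pool.Agent.Helper99.ML (BTb)
open Pool.Agent.ML (HasMu BPl IsZ sgn OkL cdL ggL DatL Lab StmtCLL exists_S)
open Pool.Agent.MLT (WJbt TBRbt)

theorem one_le_log59 {X : ℕ} (hX : 3 ≤ X) : 1 ≤ Real.log X := by
  have e : Real.exp 1 ≤ X := by
    have := Real.exp_one_lt_d9
    have h3' : (3 : ℝ) ≤ X := by exact_mod_cast hX
    linarith
  calc (1 : ℝ) = Real.log (Real.exp 1) := (Real.log_exp 1).symm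
    _ ≤ Real.log X := Real.log_le_log (Real.exp_pos 1) e

theorem inv_rpow_le59 {X : ℕ} (hX : 3 ≤ X) {a b : ℝ} (h : a ≤ b) :
    1 / Real.log X ^ b ≤ 1 / Real.log X ^ a := by
  have h1 := one_le_log59 hX
  refine one_div_le_one_div_of_le (by positivity) ?_
  exact Real.rpow_le_rpow_of_exponent_le h1 h

theorem tendsto_log_rpow59 {η : ℝ} (hη : 0 < η) (a : ℝ) :
    Tendsto (fun X : ℕ => a / Real.log X ^ η) atTop (𝓝 0) := by
  have hlog : Tendsto (fun X : ℕ => Real.log X) atTop atTop :=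
    Real.tendsto_log_atTop.comp tendsto_natCast_atTop_atTop
  have h := ((tendsto_rpow_neg_atTop hη).comp hlog).const_mul a
  rw [mul_zero] at h
  refine h.congr' ?_
  filter_upwards [eventually_ge_atTop 1] with X hX
  have h0 : 0 ≤ Real.log X := Real.log_natCast_nonneg X
  change a * Real.log X ^ (-η) = _
  rw [Real.rpow_neg h0]
  rfl

/-- common constants for finitely many special components -/
theorem countL_unif59 (hCL : StmtCountL) {kk : ℕ} {G : Type} [CommGroup G] (D : CD kk G) {b : ℝ}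
    (hb0 : 0 < b) (hb1 : b ≤ 1) {Ok : Finset D.P → Prop} (hOk : ∀ m c, m ⊆ c → Ok c → Ok m)
    {R : Set D.P} {κ : ℝ} (hκ : 1 ≤ κ)
    (hS : SysR D.P D.nm R κ) (hV : ∃ K : ℕ, ∀ p, (D.V p).card ≤ K) (hBT : BTb D b Ok)
    (R₀ : Finset (Fin kk)) (hSp : ∀ j ∈ R₀, Special D j) (hR : ∀ j ∈ R₀, BTP D b κ R Ok j)
    (h2 : ∀ j ∈ R₀, ∀ J : Finset (Fin kk), j ∈ J → J ≠ {j} → TBRbt D b R κ J) :
    ∃ ε η C : ℝ, 0 < ε ∧ ε < 1 ∧ 0 < η ∧ 0 < C ∧ ∀ j ∈ R₀, ∀ Y B : ℕ, 3 ≤ Y → 3 ≤ B →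
      ∀ S : Finset (Finset D.P), (∀ c ∈ S, Nm D c ≤ Y ∧ (∀ p ∈ pf D c, p ∈ R) ∧ Ok c ∧
        ∃ τ : D.P → D.O, BadT D c τ ∧
        (∃ p ∈ pf D c, D.cmp (τ p) ≠ j ∧ B ≤ D.nm p) ∧
        ∀ p ∈ pf D c, D.cmp (τ p) ≠ j → (D.nm p : ℝ) ≤ Real.exp (Real.log Y ^ ε)) →
      (S.card : ℝ) ≤ C * Y * Real.log Y ^ (κ - 1) *
        (1 / Real.log B ^ η + 1 / Real.log Y ^ η) := by
  classical
  induction R₀ using Finset.induction_on with
  | empty =>
    exact ⟨1 / 2, 1, 1, by norm_num, by norm_num, one_pos, one_pos, fun j hj =>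
      absurd hj (Finset.notMem_empty j)⟩
  | insert a s ha ih =>
    obtain ⟨ε, η, C, c1, c2, c3, c4, c5⟩ := ih (fun j hj => hSp j (Finset.mem_insert_of_mem hj))
      (fun j hj => hR j (Finset.mem_insert_of_mem hj))
      (fun j hj => h2 j (Finset.mem_insert_of_mem hj))
    obtain ⟨ε', η', C', d1, d2, d3, d4, d5⟩ := hCL kk G D b hb0 hb1 Ok hOk R κ hκ hS hV hBT a
      (hSp a (Finset.mem_insert_self _ _)) (hR a (Finset.mem_insert_self _ _))
      (h2 a (Finset.mem_insert_self _ _))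
    refine ⟨min ε ε', min η η', max C C', lt_min c1 d1, (min_le_left _ _).trans_lt c2,
      lt_min c3 d3, lt_max_of_lt_left c4, fun j hj Y B hY hB S hSc => ?_⟩
    have hY0 : (0 : ℝ) ≤ Y := Nat.cast_nonneg Y
    have hlY := one_le_log59 hY
    have hlB := one_le_log59 hB
    have hpw : 0 ≤ Real.log Y ^ (κ - 1) := Real.rpow_nonneg (by linarith) _
    -- the monotonicity
    have key : ∀ ε₁ η₁ C₁ : ℝ, min ε ε' ≤ ε₁ → min η η' ≤ η₁ → C₁ ≤ max C C' → 0 < C₁ →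
        ((∀ c ∈ S, Nm D c ≤ Y ∧ (∀ p ∈ pf D c, p ∈ R) ∧ Ok c ∧ ∃ τ : D.P → D.O, BadT D c τ ∧
          (∃ p ∈ pf D c, D.cmp (τ p) ≠ j ∧ B ≤ D.nm p) ∧
          ∀ p ∈ pf D c, D.cmp (τ p) ≠ j → (D.nm p : ℝ) ≤ Real.exp (Real.log Y ^ ε₁)) →
        (S.card : ℝ) ≤ C₁ * Y * Real.log Y ^ (κ - 1) *
          (1 / Real.log B ^ η₁ + 1 / Real.log Y ^ η₁)) →
        (S.card : ℝ) ≤ max C C' * Y * Real.log Y ^ (κ - 1) *
          (1 / Real.log B ^ min η η' + 1 / Real.log Y ^ min η η') := by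
      intro ε₁ η₁ C₁ e1 e2 e3 e4 e5
      refine (e5 fun c hc => ?_).trans ?_
      · obtain ⟨g1, g1', g1'', τ, g2, g3, g4⟩ := hSc c hc
        refine ⟨g1, g1', g1'', τ, g2, g3, fun p hp hpj =>
          (g4 p hp hpj).trans (Real.exp_le_exp.2 ?_)⟩
        exact Real.rpow_le_rpow_of_exponent_le hlY e1
      · have g1 := inv_rpow_le59 hB e2
        have g2 := inv_rpow_le59 hY e2
        have g3 : 0 ≤ 1 / Real.log B ^ η₁ := by positivity
        have g4 : 0 ≤ 1 / Real.log Y ^ η₁ := by positivity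
        have g5 : 0 ≤ max C C' := e4.le.trans e3
        refine mul_le_mul (mul_le_mul_of_nonneg_right (mul_le_mul_of_nonneg_right e3 hY0) hpw)
          (add_le_add g1 g2) (add_nonneg g3 g4) (mul_nonneg (mul_nonneg g5 hY0) hpw)
    rcases Finset.mem_insert.1 hj with rfl | hj
    · exact key ε' η' C' (min_le_right _ _) (min_le_right _ _) (le_max_right _ _) d4
        (fun h => d5 Y B hY (by omega) S h)
    · exact key ε η C (min_le_left _ _) (min_le_left _ _) (le_max_left _ _) c4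
        (fun h => c5 j hj Y B hY hB S h)

open scoped Classical in
/-- few sets satisfy the conditions of one of finitely many counting problems with, for every
component `j` of `R₀`, an option outside `j` at a prime above `B` -/
theorem count59 (hCN : StmtCountN) (hCL : StmtCountL) {kk : ℕ} {G : Type} [CommGroup G]
    {H : Type} [Finite H] (D : H → CD kk G) {b : ℝ} (hb0 : 0 < b) (hb1 : b ≤ 1)
    (Ok : ∀ i, Finset (D i).P → Prop) (hOk : ∀ i, ∀ m c, m ⊆ c → Ok i c → Ok i m)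
    (R : ∀ i, Set (D i).P) {κ : ℝ} (hκ : 1 ≤ κ)
    (R₀ : Finset (Fin kk)) (hR₀ : R₀.Nonempty)
    (hS : ∀ i, SysR (D i).P (D i).nm (R i) κ) (hV : ∀ i, ∃ K : ℕ, ∀ p, ((D i).V p).card ≤ K)
    (hBT : ∀ i, BTb (D i) b (Ok i)) (hSp : ∀ i, ∀ j ∈ R₀, Special (D i) j)
    (hR : ∀ i, ∀ j ∈ R₀, BTP (D i) b κ (R i) (Ok i) j)
    (h1 : ∀ i, ∀ J : Finset (Fin kk), (∃ j ∈ R₀, J = {j}) ∨ TAR (D i) (R i) J ∨
      TBRbt (D i) b (R i) κ J)
    (h2 : ∀ i, ∀ j ∈ R₀, ∀ J : Finset (Fin kk), j ∈ J → J ≠ {j} → TBRbt (D i) b (R i) κ J)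
    {ε : ℝ} (hε : 0 < ε) :
    ∃ B : ℕ, 2 ≤ B ∧ ∀ᶠ Y : ℕ in atTop, ∀ S : ∀ i : H, Finset (Finset (D i).P),
      (∀ i, ∀ c ∈ S i, Nm (D i) c ≤ Y ∧ (∀ p ∈ pf (D i) c, p ∈ R i) ∧ Ok i c ∧
        ∃ τ : (D i).P → (D i).O, BadT (D i) c τ ∧
        ∀ j ∈ R₀, ∃ p ∈ pf (D i) c, (D i).cmp (τ p) ≠ j ∧ B ≤ (D i).nm p) →
      ∀ [Fintype H], ∑ i, ((S i).card : ℝ) ≤ ε * (Y * Real.log Y ^ (κ - 1)) := by
  have hfH : Fintype H := Fintype.ofFinite H
  have hN : ∀ i : H, ∃ ε η C η' C' : ℝ, 0 < ε ∧ ε < 1 ∧ 0 < η ∧ 0 < C ∧ 0 < η' ∧ 0 < C' ∧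
      (∀ j ∈ R₀, ∀ Y B : ℕ, 3 ≤ Y → 3 ≤ B → ∀ S : Finset (Finset (D i).P),
        (∀ c ∈ S, Nm (D i) c ≤ Y ∧ (∀ p ∈ pf (D i) c, p ∈ R i) ∧ Ok i c ∧
          ∃ τ : (D i).P → (D i).O, BadT (D i) c τ ∧
          (∃ p ∈ pf (D i) c, (D i).cmp (τ p) ≠ j ∧ B ≤ (D i).nm p) ∧
          ∀ p ∈ pf (D i) c, (D i).cmp (τ p) ≠ j →
            ((D i).nm p : ℝ) ≤ Real.exp (Real.log Y ^ ε)) →
        (S.card : ℝ) ≤ C * Y * Real.log Y ^ (κ - 1) *
          (1 / Real.log B ^ η + 1 / Real.log Y ^ η)) ∧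
      (∀ Y : ℕ, 3 ≤ Y → ∀ S : Finset (Finset (D i).P),
        (∀ c ∈ S, Nm (D i) c ≤ Y ∧ (∀ p ∈ pf (D i) c, p ∈ R i) ∧ Ok i c ∧
          ∃ τ : (D i).P → (D i).O, BadT (D i) c τ ∧
          ∀ j ∈ R₀, ∃ p ∈ pf (D i) c, (D i).cmp (τ p) ≠ j ∧
            Real.exp (Real.log Y ^ ε) ≤ (D i).nm p) →
        (S.card : ℝ) ≤ C' * Y * Real.log Y ^ (κ - 1 - η')) := by
    intro i
    obtain ⟨ε₁, η, C, c1, c2, c3, c4, c5⟩ := countL_unif59 hCL (D i) hb0 hb1 (hOk i) hκ (hS i)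
      (hV i) (hBT i) R₀ (hSp i) (hR i) (h2 i)
    obtain ⟨η', C', d1, d2, d3⟩ := hCN kk G (D i) b hb0 hb1 (Ok i) (hOk i) (R i) κ hκ (hS i) (hV i)
      (hBT i) R₀ hR₀ (hSp i) (h1 i) ε₁ c1 c2
    exact ⟨ε₁, η, C, η', C', c1, c2, c3, c4, d1, d2, c5, d3⟩
  choose ε₁ η C η' C' he0 he1 hη hC hη' hC' hCL' hCN' using hN
  have hB1 : Tendsto (fun B : ℕ => ∑ i : H, R₀.card * (C i / Real.log B ^ η i)) atTop (𝓝 0) := by
    have := tendsto_finsetSum (Finset.univ : Finset H)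
      (fun i _ => (tendsto_log_rpow59 (hη i) (C i)).const_mul (R₀.card : ℝ))
    simpa using this
  obtain ⟨B, hB2, hBε⟩ := ((eventually_ge_atTop 3).and
    (hB1.eventually_le_const (half_pos hε))).exists
  have hlim : Tendsto (fun Y : ℕ => (∑ i : H, (R₀.card * (C i / Real.log Y ^ η i) +
      C' i / Real.log Y ^ η' i))) atTop (𝓝 0) := by
    have h1 := tendsto_finsetSum (Finset.univ : Finset H)
      (fun i _ => ((tendsto_log_rpow59 (hη i) (C i)).const_mul (R₀.card : ℝ)).add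
        (tendsto_log_rpow59 (hη' i) (C' i)))
    simpa using h1
  refine ⟨B, by omega, ?_⟩
  filter_upwards [hlim.eventually_le_const (half_pos hε), eventually_ge_atTop 3] with Y hY hY3
  intro S hSc hfH'
  have hsub : hfH' = hfH := Subsingleton.elim _ _
  subst hsub
  have hY0 : (0 : ℝ) ≤ Y := Nat.cast_nonneg Y
  have hlY : 0 < Real.log Y := lt_of_lt_of_le one_pos (one_le_log59 hY3)
  obtain ⟨g, hg⟩ : ∃ g : ℝ, g = Y * Real.log Y ^ (κ - 1) := ⟨_, rfl⟩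
  have hg0 : 0 ≤ g := by
    rw [hg]
    exact mul_nonneg hY0 (Real.rpow_nonneg hlY.le _)
  rw [← hg]
  -- the kinds
  let S1 : ∀ i : H, Fin kk → Finset (Finset (D i).P) := fun i j => (S i).filter fun A =>
    ∃ τ : (D i).P → (D i).O, BadT (D i) A τ ∧
      (∃ p ∈ pf (D i) A, (D i).cmp (τ p) ≠ j ∧ B ≤ (D i).nm p) ∧
      ∀ p ∈ pf (D i) A, (D i).cmp (τ p) ≠ j → ((D i).nm p : ℝ) ≤ Real.exp (Real.log Y ^ ε₁ i)
  let S2 : ∀ i : H, Finset (Finset (D i).P) := fun i => (S i).filter fun A =>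
    ∃ τ : (D i).P → (D i).O, BadT (D i) A τ ∧
      ∀ j ∈ R₀, ∃ p ∈ pf (D i) A, (D i).cmp (τ p) ≠ j ∧ Real.exp (Real.log Y ^ ε₁ i) ≤ (D i).nm p
  have hcov : ∀ i, S i ⊆ (R₀.biUnion fun j => S1 i j) ∪ S2 i := by
    intro i A hA
    obtain ⟨_, _, _, τ, hbt, hlarge⟩ := hSc i A hA
    by_cases hbig : ∀ j ∈ R₀, ∃ p ∈ pf (D i) A, (D i).cmp (τ p) ≠ j ∧
        Real.exp (Real.log Y ^ ε₁ i) ≤ (D i).nm p
    · exact Finset.mem_union_right _ (Finset.mem_filter.2 ⟨hA, τ, hbt, hbig⟩)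
    · push Not at hbig
      obtain ⟨j, hj, hbig⟩ := hbig
      exact Finset.mem_union_left _ (Finset.mem_biUnion.2 ⟨j, hj, Finset.mem_filter.2
        ⟨hA, τ, hbt, hlarge j hj, fun q hq hqj => (hbig q hq hqj).le⟩⟩)
  have hS1 : ∀ i : H, ∀ j ∈ R₀, ((S1 i j).card : ℝ) ≤
      C i * g * (1 / Real.log B ^ η i + 1 / Real.log Y ^ η i) := by
    intro i j hj
    refine (hCL' i j hj Y B hY3 hB2 (S1 i j) fun A hA => ?_).trans (le_of_eq ?_)
    · obtain ⟨h1, h2⟩ := Finset.mem_filter.1 hA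
      obtain ⟨h3, h4, h5, _⟩ := hSc i A h1
      exact ⟨h3, h4, h5, h2⟩
    · rw [hg, mul_assoc (C i)]
  have hS2 : ∀ i : H, ((S2 i).card : ℝ) ≤ C' i / Real.log Y ^ η' i * g := by
    intro i
    refine (hCN' i Y hY3 (S2 i) fun A hA => ?_).trans (le_of_eq ?_)
    · obtain ⟨h1, h2⟩ := Finset.mem_filter.1 hA
      obtain ⟨h3, h4, h5, _⟩ := hSc i A h1
      exact ⟨h3, h4, h5, h2⟩
    · rw [Real.rpow_sub hlY, hg]
      ring
  have hSi : ∀ i : H, ((S i).card : ℝ) ≤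
      R₀.card * (C i * g * (1 / Real.log B ^ η i + 1 / Real.log Y ^ η i)) +
        C' i / Real.log Y ^ η' i * g := by
    intro i
    have g1 : (S i).card ≤ ∑ j ∈ R₀, (S1 i j).card + (S2 i).card :=
      (Finset.card_le_card (hcov i)).trans ((Finset.card_union_le _ _).trans
        (Nat.add_le_add_right Finset.card_biUnion_le _))
    have g2 : ((S i).card : ℝ) ≤ ∑ j ∈ R₀, ((S1 i j).card : ℝ) + (S2 i).card := by
      exact_mod_cast g1
    have g3 : ∑ j ∈ R₀, ((S1 i j).card : ℝ) ≤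
        R₀.card * (C i * g * (1 / Real.log B ^ η i + 1 / Real.log Y ^ η i)) := by
      refine (Finset.sum_le_sum (hS1 i)).trans (le_of_eq ?_)
      rw [Finset.sum_const, nsmul_eq_mul]
    exact g2.trans (add_le_add g3 (hS2 i))
  calc ∑ i, ((S i).card : ℝ) ≤ ∑ i : H,
        (R₀.card * (C i * g * (1 / Real.log B ^ η i + 1 / Real.log Y ^ η i)) +
          C' i / Real.log Y ^ η' i * g) := Finset.sum_le_sum fun i _ => hSi i
    _ = (∑ i : H, R₀.card * (C i / Real.log B ^ η i)) * g +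
        (∑ i : H, (R₀.card * (C i / Real.log Y ^ η i) + C' i / Real.log Y ^ η' i)) * g := by
        rw [Finset.sum_mul, Finset.sum_mul, ← Finset.sum_add_distrib]
        refine Finset.sum_congr rfl fun i _ => ?_
        ring
    _ ≤ (ε / 2) * g + (ε / 2) * g :=
        add_le_add (mul_le_mul_of_nonneg_right hBε hg0) (mul_le_mul_of_nonneg_right hY hg0)
    _ = ε * g := by ring

/-- from sets of labels to classes, prime degree, one bound at a time -/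
theorem cls_of_labels59 {k : Type} [Field k] [NumberField k] (hCLL : StmtCLL) {ℓ : ℕ}
    (hℓ : ℓ.Prime) {M : ℕ} (hM : M ≠ 0) :
    ∃ F : ℕ, ∀ (P : k → Prop) (Y : ℕ) (b : ℝ),
      (∀ SS : Finset (Finset (Pr k × Fin ℓ)),
      (∀ A ∈ SS, ∏ p ∈ A, nm p.1 ≤ Y ∧ ∃ c : k, c ≠ 0 ∧ P c ∧
        ∀ v e, (v, e) ∈ A ↔ Gd M v ∧ ¬ ℓ ∣ (e : ℕ) ∧ Lab ℓ v (e : ℕ) c) →
      (SS.card : ℝ) ≤ b) → ∀ T : Finset k,
      (∀ c ∈ T, ∀ c' ∈ T, (∃ d : k, c = c' * d ^ ℓ) → c = c') →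
      (∀ c ∈ T, c ≠ 0 ∧ LN.cond ℓ c ≤ Y ∧ P c) → (T.card : ℝ) ≤ F * b := by
  classical
  obtain ⟨F, hF⟩ := hCLL k ℓ hℓ.two_le
  have hfin : {v : Pr k | ¬ Gd M v}.Finite := Pool.Agent.Helper88.HG.finite_bad k hM
  let Bd : Finset (Pr k × Fin ℓ) := hfin.toFinset ×ˢ (Finset.univ : Finset (Fin ℓ))
  refine ⟨F * Bd.powerset.card, fun P Y b h T hT hTc => ?_⟩
  have hS : ∀ c : k, ∃ S : Finset (Pr k × Fin ℓ), c ∈ T →
      (∀ v e, (v, e) ∈ S ↔ (e : ℕ) ≠ 0 ∧ Lab ℓ v (e : ℕ) c) ∧ OkL S ∧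
        ∏ p ∈ S, nm p.1 = LN.cond ℓ c := by
    intro c
    by_cases hc : c ∈ T
    · obtain ⟨S, hS⟩ := exists_S (k := k) hℓ.pos (hTc c hc).1
      exact ⟨S, fun _ => hS⟩
    · exact ⟨∅, fun h1 => absurd h1 hc⟩
  choose S hS using hS
  have h1 := hF T S hT fun c hc => ⟨(hTc c hc).1, (hS c hc).1⟩
  have he : ∀ e : Fin ℓ, (e : ℕ) ≠ 0 ↔ ¬ ℓ ∣ (e : ℕ) := by
    intro e
    constructor
    · intro h2 h3
      have h4 := Nat.le_of_dvd (Nat.pos_of_ne_zero h2) h3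
      have h5 := e.2
      omega
    · intro h2 h3
      rw [h3] at h2
      exact h2 (dvd_zero ℓ)
  let g : Finset (Pr k × Fin ℓ) → Finset (Pr k × Fin ℓ) × Finset (Pr k × Fin ℓ) := fun A =>
    (A.filter fun p => Gd M p.1, A.filter fun p => ¬ Gd M p.1)
  have hg : Function.Injective g := by
    intro A A' hAA
    have h1 : (A.filter fun p => Gd M p.1) = A'.filter fun p => Gd M p.1 := congrArg Prod.fst hAA
    have h2 : (A.filter fun p => ¬ Gd M p.1) = A'.filter fun p => ¬ Gd M p.1 :=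
      congrArg Prod.snd hAA
    rw [← Finset.filter_union_filter_not_eq (fun p : Pr k × Fin ℓ => Gd M p.1) A, h1, h2,
      Finset.filter_union_filter_not_eq]
  let SS : Finset (Finset (Pr k × Fin ℓ)) := (T.image S).image fun A => A.filter fun p => Gd M p.1
  have h2 : (T.image S).card ≤ (SS ×ˢ Bd.powerset).card := by
    rw [← Finset.card_image_of_injective (T.image S) hg]
    refine Finset.card_le_card ?_
    intro q hq
    obtain ⟨A, hA, rfl⟩ := Finset.mem_image.1 hq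
    rw [Finset.mem_product]
    refine ⟨Finset.mem_image_of_mem _ hA, ?_⟩
    rw [Finset.mem_powerset]
    intro p hp
    obtain ⟨-, hp2⟩ := Finset.mem_filter.1 hp
    exact Finset.mem_product.2 ⟨hfin.mem_toFinset.2 hp2, Finset.mem_univ _⟩
  have h3 : (SS.card : ℝ) ≤ b := by
    refine h SS fun A hA => ?_
    obtain ⟨A₀, hA₀, rfl⟩ := Finset.mem_image.1 hA
    obtain ⟨c, hc, rfl⟩ := Finset.mem_image.1 hA₀
    obtain ⟨h4, h5, h6⟩ := hS c hc
    refine ⟨?_, c, (hTc c hc).1, (hTc c hc).2.2, ?_⟩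
    · refine le_trans ?_ (hTc c hc).2.1
      rw [← h6]
      exact Nat.le_of_dvd (Finset.prod_pos fun p _ => LN.nm_pos p.1)
        (Finset.prod_dvd_prod_of_subset _ _ _ (Finset.filter_subset _ _))
    · intro v e
      rw [Finset.mem_filter, h4, he]
      constructor
      · rintro ⟨⟨h7, h8⟩, h9⟩
        exact ⟨h9, h7, h8⟩
      · rintro ⟨h9, h7, h8⟩
        exact ⟨⟨h7, h8⟩, h9⟩
  rw [Finset.card_product] at h2
  have h4 : T.card ≤ F * Bd.powerset.card * SS.card := by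
    refine h1.trans ?_
    calc F * (T.image S).card ≤ F * (SS.card * Bd.powerset.card) := Nat.mul_le_mul_left F h2
      _ = F * Bd.powerset.card * SS.card := by ring
  calc (T.card : ℝ) ≤ ((F * Bd.powerset.card * SS.card : ℕ) : ℝ) := by exact_mod_cast h4
    _ = ((F * Bd.powerset.card : ℕ) : ℝ) * (SS.card : ℝ) := by push_cast; ring
    _ ≤ ((F * Bd.powerset.card : ℕ) : ℝ) * b := mul_le_mul_of_nonneg_left h3 (Nat.cast_nonneg _)

end Pool.Agent.PD
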